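import Pool.Agent.L0h45.AV.Stm

/-! Module RLC of the project AV: the invariants of the tuple of a class. -/

set_option autoImplicit false
set_option linter.all false

open Finset IsDedekindDomain NumberField MeasureTheory Filter Topology
open scoped Classical

namespace Pool.Agent.L0h2.AV

open Pool.Agent.N874.PP (Tup chA chB gq tau Ev)
open Pool.Agent.N922.PQ (dsc IsCub JJ Ov S_CHI S_NZ)
open Pool.Agent.L0h45.AV

theorem t_RLC (hC : S_CHI) (hN : S_NZ) : S_RLC := by
  intro L _ _ a b θ h α B hα hR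
  obtain ⟨e, hli, hJ, hB⟩ := hR
  obtain ⟨h1, h2, h3⟩ := hC L a b θ h α e hα hli hJ (fun i j => mt B i j) hB
  refine ⟨h2, h3, fun hn hs hx => ?_⟩
  have e0 : e 0 ≠ 0 := hli.ne_zero 0
  apply hs
  refine hN L a b θ h α (e 0) hα e0 hn ?_ ?_
  · rw [hJ 0 0]
    simp [JJ]
  · have e1 : mt B 0 0 = B.x := rfl
    rw [hB 0 0, e1, hx]
    simp

end Pool.Agent.L0h2.AV
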